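import Pool.Agent.H91.VarFT

set_option autoImplicit false

open H91.VarFT in
theorem Pool.Agent.Results.MP_598c7e_an.Defect.result :
    ∃ p q : ℝ → ENNReal, IsExp p ∧ IsExp q ∧ Bdd p q ∧ (∀ x, pm p ≤ p x) ∧
    (∀ x, q x ≤ cj (pm p)) ∧ IsExp (rr p) ∧ IsExp (ss p q) ∧ ¬ MemV (rr p) fun _ => 1 :=
  main
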